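import Pool.Agent.H117R2.Steiner5.Divis

/-!
The primes `p < 383` of the form `4 k + 3` for which `S(p+1,6,5)` satisfies the divisibility
condition.
-/

namespace Pool.Agent.TH721.Steiner5

open Pool.Agent.H117R2.Steiner5

theorem p_cases_383 {p : ℕ} (hp : p.Prime) (h4 : p % 4 = 3) (h5 : 5 < p) (hb : p < 383)
    (h3 : 3 ∣ (p - 2).choose 2) (h54 : 5 ∣ p.choose 4) :
    p ∈ ([11, 23, 47, 71, 83, 107, 131, 167, 191, 227, 251, 263, 311, 347] : List ℕ) := by
  have e3 := mod3_of h3
  have e5 := mod5_of h54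
  have e0 : p % 3 ≠ 0 := by
    intro h
    have h1 : 3 ∣ p := Nat.dvd_of_mod_eq_zero h
    rcases hp.eq_one_or_self_of_dvd 3 h1 with h2 | h2 <;> omega
  have e33 : p % 3 = 2 := by
    have h6 : p % 3 = 0 ∨ p % 3 = 1 ∨ p % 3 = 2 := by omega
    rcases h6 with h6 | h6 | h6
    · exact absurd h6 e0
    · exfalso
      apply e3
      omega
    · exact h6
  obtain ⟨k, rfl⟩ : ∃ k, p = 12 * k + 11 := by
    refine ⟨p / 12, ?_⟩
    have h7 : p % 12 = 11 := by omega
    omega
  have hk : k < 31 := by omega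
  clear h3 h54 e3 e0 e33 h4 h5 hb
  interval_cases k
  all_goals first
    | (exfalso; omega)
    | (simp; done)
    | (exfalso; revert hp; norm_num; done)

end Pool.Agent.TH721.Steiner5
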